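import Pool.Agent.V11244.CohGame

/-!
# Strongly proper forcing destroys the winning strategy of II in the Menger game on the Cantor space

Names, positions and plays for an arbitrary forcing; the argument for Cohen forcing is the one of
the starting file `Pool.Agent.V11244.CohCore`.
-/

set_option autoImplicit false

namespace Pool.Agent.E8helper24.MG

set_option linter.unusedSectionVars false

open Pool.Agent.Helper669.Forcing
open Pool.Agent.V11244.CohGame
open Set TopologicalSpace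

universe u

/-- The Cantor space. -/
abbrev Can : Type := ℕ → Bool

theorem polish_can : PolishSpace Can :=
  { (inferInstance : SecondCountableTopology Can), (inferInstance : IsCompletelyMetrizableSpace Can)
    with }

variable {P : Type u} [Preorder P]

/-- `cone` describes a name for a real which is new below `q₁`: `cone r` is the closed set of the
sequences which are not excluded by `r`. -/
structure NewReal (q₁ : P) (cone : P → Set Can) : Prop where
  anti : ∀ s t : P, t ≤ s → cone t ⊆ cone s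
  closed : ∀ r, IsClosed (cone r)
  nonempty : ∀ r, (cone r).Nonempty
  avoid : ∀ q ≤ q₁, ∀ c, ∃ r ≤ q, c ∉ cone r

variable (P) in
/-- Names for families of subsets of the Cantor space. -/
abbrev Nm : Type u := Set Can → Set P

/-- The named family is a cover by ground model open sets, closed under finite unions. -/
def fLegal (A : Nm P) : Set P :=
  fand (fOpenCover A) (fall fun F : Finset (Set Can) =>
    fimp (fall fun O : Set Can => fall fun _ : O ∈ F => meets (A O)) (meets (A (⋃ O ∈ F, O))))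

/-- Legal moves: names that are legal below `q₀` and consist of clopen sets. -/
def Legal (q₀ : P) (A : Nm P) : Prop :=
  (∀ p ≤ q₀, p ∈ fLegal A) ∧ ∀ O, (A O).Nonempty → IsClopen O

/-- What we need from a strategy. -/
structure Strat (q₀ : P) (S : (n : ℕ) → (Fin (n + 1) → Nm P) → Nm P) : Prop where
  ext : ∀ n (A B : Fin (n + 1) → Nm P), ∀ q ≤ q₀, (∀ i, q ∈ fSame (A i) (B i)) →
    ∃ r ≤ q, r ∈ fSame (S n A) (S n B)
  ans : ∀ n (A : Fin (n + 1) → Nm P), (∀ i, ∀ p ≤ q₀, p ∈ fLegal (A i)) → ∀ q ≤ q₀,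
    ∃ r ≤ q, ∃ F : Finset (Set Can),
      (∀ O, ∀ r' ≤ r, r' ∈ meets (S n A O) → O ∈ F ∧ ∃ r'' ≤ r', r'' ∈ meets (A (Fin.last n) O))
  cov : ∀ A : ℕ → Nm P, (∀ n, ∀ p ≤ q₀, p ∈ fLegal (A n)) → ∀ x, ∀ q ≤ q₀,
    ∃ r ≤ q, ∃ n O, x ∈ O ∧ r ∈ meets (S n (fun i => A i) O)

theorem meets_of_dense {N : Set P} {p : P} (h : ∀ q ≤ p, ∃ r ≤ q, r ∈ meets N) :
    p ∈ meets N := by
  intro q hq
  obtain ⟨r, hr, h1⟩ := h q hq
  obtain ⟨r', hr', s, hs, h2⟩ := h1 r le_rfl
  exact ⟨r', hr'.trans hr, s, hs, h2⟩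

/-- Deciding finitely many statements. -/
theorem decide_fin (N : Nm P) (G : Finset (Set Can)) (q : P) :
    ∃ r ≤ q, ∀ O ∈ G, r ∈ meets (N O) ∨ ∀ r' ≤ r, r' ∉ meets (N O) := by
  classical
  induction G using Finset.induction_on with
  | empty => exact ⟨q, le_rfl, by simp⟩
  | insert O G _ ih =>
    obtain ⟨r, hr, h⟩ := ih
    by_cases h1 : ∃ r' ≤ r, r' ∈ meets (N O)
    · obtain ⟨r', hr', h2⟩ := h1
      refine ⟨r', hr'.trans hr, fun O' hO' => ?_⟩
      rcases Finset.mem_insert.1 hO' with rfl | hO'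
      · exact Or.inl h2
      · rcases h O' hO' with h3 | h3
        · exact Or.inl (down_meets _ _ h3 _ hr')
        · exact Or.inr fun r'' hr'' => h3 r'' (hr''.trans hr')
    · push Not at h1
      refine ⟨r, hr, fun O' hO' => ?_⟩
      rcases Finset.mem_insert.1 hO' with rfl | hO'
      · exact Or.inr h1
      · exact h O' hO'

/-- The answer to the move `U` after the moves in the list `l` (latest first). -/
def ans (S : (n : ℕ) → (Fin (n + 1) → Nm P) → Nm P) (l : List (Nm P)) (U : Nm P) : Nm P :=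
  S l.length (fun i => (U :: l)[l.length - i]'(by simp only [List.length_cons]; omega))

/-- `r` decides the answer to be the finite set `G`. -/
def Dec (S : (n : ℕ) → (Fin (n + 1) → Nm P) → Nm P) (l : List (Nm P)) (U : Nm P) (r : P)
    (G : Finset {W : Set Can // IsClopen W}) : Prop :=
  (∀ O, ∀ r' ≤ r, r' ∈ meets (ans S l U O) → ∃ W ∈ G, W.1 = O) ∧
    ∀ W ∈ G, r ∈ meets (ans S l U W.1)

/-- The points which are always covered. -/
def KK (q₀ : P) (S : (n : ℕ) → (Fin (n + 1) → Nm P) → Nm P) (l : List (Nm P)) (q : P) : Set Can :=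
  {x | ∀ U, Legal q₀ U → ∀ q' ≤ q, ∃ r ≤ q', ∃ O, x ∈ O ∧ r ∈ meets (ans S l U O)}

/-- The cover avoiding the image of the generic real. -/
def avoid (cone : P → Set Can) (φ : Can → Can) : Nm P :=
  fun O => {r | IsClopen O ∧ Disjoint O (φ '' cone r)}

section

variable {q₀ : P} {S : (n : ℕ) → (Fin (n + 1) → Nm P) → Nm P}

theorem exists_dec (hS : Strat q₀ S) {l : List (Nm P)} (hl : ∀ A ∈ l, Legal q₀ A) {U : Nm P}
    (hU : Legal q₀ U) {q : P}
    (hq : q ≤ q₀) : ∃ r ≤ q, ∃ G, Dec S l U r G ∧ ∀ W ∈ G, r ∈ meets (U W.1) := by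
  classical
  obtain ⟨r, hr, F, h1⟩ := hS.ans l.length
    (fun i => (U :: l)[l.length - i]'(by simp only [List.length_cons]; omega)) (by
      intro i
      have : (U :: l)[l.length - (i : ℕ)]'(by simp only [List.length_cons]; omega) ∈ U :: l :=
        List.getElem_mem _
      rcases List.mem_cons.1 this with h | h
      · rw [h]
        exact hU.1
      · exact (hl _ h).1) q hq
  have hlast : (U :: l)[l.length - ((Fin.last l.length : Fin (l.length + 1)) : ℕ)]'(by
      simp only [List.length_cons]; omega) = U := by simp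
  simp only [hlast] at h1
  obtain ⟨r2, hr2, h2⟩ := decide_fin (ans S l U) F r
  obtain ⟨r3, hr3, h3⟩ := decide_fin U F r2
  have hcl : ∀ O, ∀ r' ≤ r3, r' ∈ meets (ans S l U O) → IsClopen O := by
    intro O r' hr' h4
    obtain ⟨-, r'', hr'', h5⟩ := h1 O r' (hr'.trans (hr3.trans hr2)) h4
    obtain ⟨-, -, s, hs, -⟩ := h5 r'' le_rfl
    exact hU.2 O ⟨s, hs⟩
  refine ⟨r3, hr3.trans (hr2.trans hr), (F.filter fun O => r3 ∈ meets (ans S l U O)).subtype
    IsClopen, ⟨fun O r' hr' h4 => ?_, fun W hW => ?_⟩, fun W hW => ?_⟩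
  · have h5 := (h1 O r' (hr'.trans (hr3.trans hr2)) h4).1
    refine ⟨⟨O, hcl O r' hr' h4⟩, ?_, rfl⟩
    rw [Finset.mem_subtype, Finset.mem_filter]
    refine ⟨h5, ?_⟩
    rcases h2 O h5 with h6 | h6
    · exact down_meets _ _ h6 _ hr3
    · exact absurd h4 (h6 r' (hr'.trans hr3))
  · rw [Finset.mem_subtype, Finset.mem_filter] at hW
    exact hW.2
  · rw [Finset.mem_subtype, Finset.mem_filter] at hW
    obtain ⟨-, r'', hr'', h5⟩ := h1 W.1 r3 (hr3.trans hr2) hW.2
    rcases h3 W.1 hW.1 with h6 | h6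
    · exact h6
    · exact absurd h5 (h6 r'' hr'')

theorem legal_avoid {cone : P → Set Can} (hc : NewReal q₀ cone) {φ : Can → Can}
    (hφ : Continuous φ) (hi : Function.Injective φ) :
    Legal q₀ (avoid cone φ) := by
  have hdown : ∀ O, Down (avoid cone φ O) := fun O r hr q hq =>
    ⟨hr.1, hr.2.mono_right (image_mono (hc.anti _ _ hq))⟩
  refine ⟨fun p hp => ⟨⟨fun O => mem_fimp.2 fun q _ h => ?_, fun x => mem_fex.2 fun q hq => ?_⟩,
    fun F => mem_fimp.2 fun q _ h => ?_⟩, fun O ⟨r, hr⟩ => hr.1⟩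
  · obtain ⟨r, hr, h1⟩ := exists_of_meets (hdown O) h
    exact ⟨r, hr, h1.1.isOpen⟩
  · obtain ⟨r, hr, h1⟩ : ∃ r ≤ q, x ∉ φ '' cone r := by
      by_cases hx : ∃ c, φ c = x
      · obtain ⟨c, rfl⟩ := hx
        obtain ⟨r, hr, h1⟩ := hc.avoid q (hq.trans hp) c
        refine ⟨r, hr, ?_⟩
        rintro ⟨c', h2, h3⟩
        exact h1 (hi h3 ▸ h2)
      · exact ⟨q, le_rfl, fun ⟨c, _, h2⟩ => hx ⟨c, h2⟩⟩
    have h2 : IsClosed (φ '' cone r) := ((hc.closed r).isCompact.image hφ).isClosed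
    obtain ⟨O, hO, hxO, h3⟩ := compact_exists_isClopen_in_isOpen h2.isOpen_compl h1
    refine ⟨r, hr, O, mem_fex_of_mem hxO (down_meets _) (meets_of_mem ⟨hO, ?_⟩)⟩
    exact disjoint_left.2 fun y hy hy' => h3 hy hy'
  · -- finite unions
    have h1 : ∀ G : Finset (Set Can), G ⊆ F → ∃ r ≤ q, ∀ O ∈ G, r ∈ avoid cone φ O := by
      classical
      intro G
      induction G using Finset.induction_on with
      | empty => exact fun _ => ⟨q, le_rfl, by simp⟩
      | insert O G _ ih =>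
        intro hG
        obtain ⟨r, hr, h2⟩ := ih ((Finset.subset_insert _ _).trans hG)
        obtain ⟨r', hr', h3⟩ := exists_of_meets (hdown O)
          (down_meets _ _ (h O (hG (Finset.mem_insert_self _ _))) _ hr)
        refine ⟨r', hr'.trans hr, fun O' hO' => ?_⟩
        rcases Finset.mem_insert.1 hO' with rfl | hO'
        · exact h3
        · exact hdown _ _ (h2 O' hO') _ hr'
    obtain ⟨r, hr, h2⟩ := h1 F subset_rfl
    refine ⟨r, hr, meets_of_mem ⟨?_, ?_⟩⟩
    · exact isClopen_biUnion_finset fun O hO => (h2 O hO).1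
    · rw [disjoint_iUnion₂_left]
      exact fun O hO => (h2 O hO).2

theorem countable_KK {cone : P → Set Can} (hc : NewReal q₀ cone) (hS : Strat q₀ S)
    {l : List (Nm P)} (hl : ∀ A ∈ l, Legal q₀ A) {q : P} (hq : q ≤ q₀) :
    (KK q₀ S l q).Countable := by
  by_contra hunc
  have hunc' : ¬ (closure (KK q₀ S l q)).Countable := fun h => hunc (h.mono subset_closure)
  have := polish_can
  obtain ⟨φ, hφ1, hφ2, hφ3⟩ := isClosed_closure.exists_nat_bool_injection_of_not_countable hunc'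
  have hU : Legal q₀ (avoid cone φ) := legal_avoid hc hφ2 hφ3
  obtain ⟨r, hr, G, ⟨h1, h2⟩, h3⟩ := exists_dec hS hl hU hq
  have hdown : ∀ O, Down (avoid cone φ O) := fun O r hr q hq =>
    ⟨hr.1, hr.2.mono_right (image_mono (hc.anti _ _ hq))⟩
  obtain ⟨r1, hr1, h4⟩ : ∃ r1 ≤ r, ∀ W ∈ G, r1 ∈ avoid cone φ W.1 := by
    classical
    clear h1 h2
    induction G using Finset.induction_on with
    | empty => exact ⟨r, le_rfl, by simp⟩
    | insert W G _ ih =>
      obtain ⟨r1, hr1, h4⟩ := ih fun W' hW' => h3 W' (Finset.mem_insert_of_mem hW')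
      obtain ⟨r2, hr2, h5⟩ := exists_of_meets (hdown W.1)
        (down_meets _ _ (h3 W (Finset.mem_insert_self _ _)) _ hr1)
      refine ⟨r2, hr2.trans hr1, fun W' hW' => ?_⟩
      rcases Finset.mem_insert.1 hW' with rfl | hW'
      · exact h5
      · exact hdown _ _ (h4 W' hW') _ hr2
  have hKW : closure (KK q₀ S l q) ⊆ ⋃ W ∈ G, W.1 := by
    refine closure_minimal (fun x hx => ?_) (isClosed_biUnion_finset fun W _ => W.2.isClosed)
    obtain ⟨r2, hr2, O, hxO, h5⟩ := hx (avoid cone φ) hU r1 (hr1.trans hr)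
    obtain ⟨W, hW, rfl⟩ := h1 O r2 (hr2.trans hr1) h5
    exact mem_iUnion₂.2 ⟨W, hW, hxO⟩
  obtain ⟨c, hc'⟩ := hc.nonempty r1
  obtain ⟨W, hW, h5⟩ := mem_iUnion₂.1 (hKW (hφ1 (mem_range_self c)))
  exact disjoint_left.1 (h4 W hW).2 h5 (mem_image_of_mem φ hc')

end

/-! ### Countable models -/

/-- Any countably many finitary functions leave a countable set containing `q₀` invariant all of
whose members have strongly generic extensions. -/
theorem exists_model (hP : StronglyProper P) {ι : Type} [Countable ι] (q₀ : P)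
    (f : ι → List P → P) :
    ∃ M : Set P, M.Countable ∧ q₀ ∈ M ∧ (∀ i l, (∀ p ∈ l, p ∈ M) → f i l ∈ M) ∧
      ∀ p ∈ M, ∃ q ≤ p, StronglyGeneric M q := by
  classical
  by_cases hι : Nonempty ι
  swap
  · obtain ⟨M, hM, hF, hq⟩ := hP P id (fun _ => q₀) Function.injective_id
    exact ⟨M, hM, hF [] (by simp), fun i => absurd ⟨i⟩ hι, fun p hp => hq p hp⟩
  obtain ⟨d, hd⟩ := exists_surjective_nat ι
  let Z : Type u := P ⊕ ULift.{u} ℕ
  -- the value of the function at a list
  let F : List Z → Z := fun l =>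
    match l with
    | [] => Sum.inl q₀
    | Sum.inl _ :: _ => Sum.inr ⟨0⟩
    | [Sum.inr n] => Sum.inr ⟨n.down + 1⟩
    | Sum.inr n :: z :: l => Sum.inl (f (d n.down) (((z :: l).filterMap Sum.getLeft?)))
  obtain ⟨M, hM, hF, hq⟩ := hP Z Sum.inl F Sum.inl_injective
  have h0 : Sum.inl q₀ ∈ M := hF [] (by simp)
  have hnat : ∀ n : ℕ, (Sum.inr ⟨n⟩ : Z) ∈ M := by
    intro n
    induction n with
    | zero => exact hF [Sum.inl q₀] (by simpa using h0)
    | succ n ih => exact hF [Sum.inr ⟨n⟩] (by simpa using ih)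
  refine ⟨{p | Sum.inl p ∈ M}, ?_, h0, fun i l hl => ?_, fun p hp => hq p hp⟩
  · exact hM.preimage Sum.inl_injective
  · obtain ⟨n, rfl⟩ := hd i
    have h1 := hF (Sum.inr ⟨n⟩ :: Sum.inr ⟨n⟩ :: l.map Sum.inl) (by
      intro z hz
      rcases List.mem_cons.1 hz with rfl | hz
      · exact hnat n
      rcases List.mem_cons.1 hz with rfl | hz
      · exact hnat n
      obtain ⟨p, hp, rfl⟩ := List.mem_map.1 hz
      exact hl p hp)
    have h2 : ((Sum.inr ⟨n⟩ :: l.map Sum.inl : List Z).filterMap Sum.getLeft?) = l := by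
      rw [List.filterMap_cons_none (by rfl), List.filterMap_map]
      clear h1 hl
      induction l with
      | nil => rfl
      | cons a l ih =>
        rw [List.filterMap_cons_some (b := a) (by rfl), ih]
    change Sum.inl (f (d n) ((Sum.inr ⟨n⟩ :: l.map Sum.inl : List Z).filterMap Sum.getLeft?)) ∈ M at h1
    rw [h2] at h1
    exact h1

/-- Below a condition without atoms, a strongly proper forcing adds a new real. -/
theorem exists_newReal (hP : StronglyProper P) (p : P)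
    (hp : ∀ q ≤ p, ∃ r ≤ q, ∃ s ≤ q, ∀ t, t ≤ r → ¬ t ≤ s) :
    ∃ q₁ ≤ p, ∃ cone : P → Set Can, NewReal q₁ cone := by
  classical
  -- incompatible extensions
  have hsplit : ∀ q : P, ∃ r : P × P, (q ≤ p → r.1 ≤ q ∧ r.2 ≤ q ∧ ∀ t, t ≤ r.1 → ¬ t ≤ r.2) := by
    intro q
    by_cases hq : q ≤ p
    · obtain ⟨r, hr, s, hs, h⟩ := hp q hq
      exact ⟨(r, s), fun _ => ⟨hr, hs, h⟩⟩
    · exact ⟨(q, q), fun h => absurd h hq⟩
  choose g hg using hsplit
  -- common extensions with `p`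
  have hcomm : ∀ q : P, ∃ r : P, ((∃ t, t ≤ q ∧ t ≤ p) → r ≤ q ∧ r ≤ p) := by
    intro q
    by_cases hq : ∃ t, t ≤ q ∧ t ≤ p
    · obtain ⟨t, ht⟩ := hq
      exact ⟨t, fun _ => ht⟩
    · exact ⟨q, fun h => absurd h hq⟩
  choose k hk using hcomm
  let f : Fin 3 → List P → P := fun i l =>
    if i = 0 then (g (l.headD p)).1 else if i = 1 then (g (l.headD p)).2 else k (l.headD p)
  obtain ⟨M, hM, hpM, hf, hgen⟩ := exists_model hP p f
  have hf0 : ∀ q ∈ M, (g q).1 ∈ M := fun q hq => by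
    have := hf 0 [q] (by simpa using hq)
    simpa [f] using this
  have hf1 : ∀ q ∈ M, (g q).2 ∈ M := fun q hq => by
    have := hf 1 [q] (by simpa using hq)
    simpa [f] using this
  have hf2 : ∀ q ∈ M, k q ∈ M := fun q hq => by
    have := hf 2 [q] (by simpa using hq)
    simpa [f] using this
  obtain ⟨q₁, hq₁, hq₁'⟩ := hgen p hpM
  obtain ⟨e, he⟩ := hM.exists_eq_range ⟨p, hpM⟩
  refine ⟨q₁, hq₁, fun r => {c | ∀ n, (c n = false → ¬ r ≤ e n) ∧
    (c n = true → ∃ t, t ≤ r ∧ t ≤ e n)}, ?_, ?_, ?_, ?_⟩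
  · intro s t hst c hc n
    refine ⟨fun h h' => (hc n).1 h (hst.trans h'), fun h => ?_⟩
    obtain ⟨t', h1, h2⟩ := (hc n).2 h
    exact ⟨t', h1.trans hst, h2⟩
  · intro r
    have h1 : {c : Can | ∀ n, (c n = false → ¬ r ≤ e n) ∧ (c n = true → ∃ t, t ≤ r ∧ t ≤ e n)} =
        ⋂ n, (fun c : Can => c n) ⁻¹' {b | (b = false → ¬ r ≤ e n) ∧
          (b = true → ∃ t, t ≤ r ∧ t ≤ e n)} := by
      ext c
      simp
    rw [h1]
    exact isClosed_iInter fun n => (isClosed_discrete _).preimage (continuous_apply n)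
  · intro r
    refine ⟨fun n => decide (r ≤ e n), fun n => ⟨fun h => by simpa using h, fun h => ?_⟩⟩
    have h1 : r ≤ e n := by simpa using h
    exact ⟨r, le_rfl, h1⟩
  · intro q hq c
    obtain ⟨q', hq'M, h1⟩ := hq₁' q hq
    -- a restriction below `p`
    obtain ⟨t, ht1, ht2⟩ := h1 q' hq'M le_rfl
    have h2 := hk q' ⟨t, ht1, ht2.trans (hq.trans hq₁)⟩
    have h3 : k q' ∈ M := hf2 q' hq'M
    obtain ⟨h4, h5, h6⟩ := hg (k q') h2.2
    have h7 : (g (k q')).1 ∈ M := hf0 _ h3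
    have h8 : (g (k q')).2 ∈ M := hf1 _ h3
    obtain ⟨n, hn⟩ : ∃ n, e n = (g (k q')).1 := by
      rw [he] at h7
      exact h7
    cases hcn : c n
    · -- force `e n` into the generic filter
      obtain ⟨r, hr1, hr2⟩ := h1 _ h7 (h4.trans h2.1)
      refine ⟨r, hr2, fun h => (h n).1 hcn ?_⟩
      rw [hn]
      exact hr1
    · obtain ⟨r, hr1, hr2⟩ := h1 _ h8 (h5.trans h2.1)
      refine ⟨r, hr2, fun h => ?_⟩
      obtain ⟨t', h9, h10⟩ := (h n).2 hcn
      rw [hn] at h10
      exact h6 t' h10 (h9.trans hr1)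

end Pool.Agent.E8helper24.MG
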