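import Pool.Agent.E8helper24.MG.Core

/-!
# The play that beats a strategy of II
-/

set_option autoImplicit false

namespace Pool.Agent.E8helper24.MG

set_option linter.unusedSectionVars false

open Pool.Agent.Helper669.Forcing
open Pool.Agent.V11244.CohGame
open Set TopologicalSpace

universe u

variable {P : Type u} [Preorder P]

/-- Finite sets of clopen sets. -/
abbrev FC : Type := Finset {W : Set Can // IsClopen W}

theorem countable_FC : Countable FC := by
  have h1 : Countable (Clopens Can) := (Clopens.countable_iff_secondCountable (X := Can)).2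
    inferInstance
  have h2 : Countable {W : Set Can // IsClopen W} := by
    refine Function.Injective.countable (f := fun W => (⟨W.1, W.2⟩ : Clopens Can)) ?_
    intro W W' h
    exact Subtype.ext (congrArg (fun C : Clopens Can => (C : Set Can)) h)
  exact inferInstance

variable (P) in
/-- Indices. -/
abbrev Idx : Type u := P × FC

section

variable (q₀ : P) (cone : P → Set Can) (S : (n : ℕ) → (Fin (n + 1) → Nm P) → Nm P)

/-- There are a move and a condition as described by the index. -/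
def Sel (l : List (Nm P)) (d : Idx P) : Prop :=
  ∃ U : Nm P, Legal q₀ U ∧ ∃ r ≤ d.1, Dec S l U r d.2

open Classical in
/-- The chosen move. -/
noncomputable def Uo (l : List (Nm P)) (d : Idx P) : Nm P :=
  if h : Sel q₀ S l d then h.choose else avoid cone id

open Classical in
/-- The chosen condition. -/
noncomputable def ro (l : List (Nm P)) (d : Idx P) : P :=
  if h : Sel q₀ S l d then h.choose_spec.2.choose else q₀

theorem legal_Uo (hc : NewReal q₀ cone) (l : List (Nm P)) (d : Idx P) :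
    Legal q₀ (Uo q₀ cone S l d) := by
  unfold Uo
  split_ifs with h
  · exact h.choose_spec.1
  · exact legal_avoid hc continuous_id Function.injective_id

theorem ro_spec {l : List (Nm P)} {d : Idx P} (h : Sel q₀ S l d) :
    ro q₀ S l d ≤ d.1 ∧ Dec S l (Uo q₀ cone S l d) (ro q₀ S l d) d.2 := by
  unfold Uo ro
  rw [dif_pos h, dif_pos h]
  exact h.choose_spec.2.choose_spec

/-- The positions (latest move first). -/
noncomputable def pos : List (Idx P) → List (Nm P)
  | [] => []
  | d :: m => Uo q₀ cone S (pos m) d :: pos m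

theorem length_pos (m : List (Idx P)) : (pos q₀ cone S m).length = m.length := by
  induction m with
  | nil => rfl
  | cons d m ih => simp [pos, ih]

theorem legal_pos (hc : NewReal q₀ cone) (m : List (Idx P)) :
    ∀ A ∈ pos q₀ cone S m, Legal q₀ A := by
  induction m with
  | nil => intro A hA; simp [pos] at hA
  | cons d m ih =>
    intro A hA
    rcases List.mem_cons.1 hA with rfl | hA
    · exact legal_Uo q₀ cone S hc _ d
    · exact ih A hA

variable (M : Set P) (x : Can)

/-- The index lies in the model and gives an answer not containing `x`. -/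
def Good (m : List (Idx P)) (d : Idx P) : Prop :=
  d.1 ∈ M ∧ Sel q₀ S (pos q₀ cone S m) d ∧ ∀ W ∈ d.2, x ∉ W.1

variable (en : Idx P → ℕ)

/-- The conditions forcing that `d` is chosen after `m`. -/
def Ch (m : List (Idx P)) (d : Idx P) : Set P :=
  {r | Good q₀ cone S M x m d ∧ r ≤ ro q₀ S (pos q₀ cone S m) d ∧
    ∀ d', en d' < en d → Good q₀ cone S M x m d' → ∀ r' ≤ r, ¬ r' ≤ ro q₀ S (pos q₀ cone S m) d'}

/-- The conditions forcing that the list of the chosen indices is `m` (latest first). -/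
def EE : List (Idx P) → Set P
  | [] => univ
  | d :: m => EE m ∩ Ch q₀ cone S M x en m d

/-- The play. -/
def play (n : ℕ) : Nm P := fun O =>
  {r | ∃ m d, m.length = n ∧ r ∈ EE q₀ cone S M x en (d :: m) ∧
    r ∈ meets (Uo q₀ cone S (pos q₀ cone S m) d O)}

variable {q₀ cone S M x en}

theorem down_Ch (m : List (Idx P)) (d : Idx P) : Down (Ch q₀ cone S M x en m d) :=
  fun _ hr _ hq => ⟨hr.1, hq.trans hr.2.1, fun d' h1 h2 r' hr' => hr.2.2 d' h1 h2 r' (hr'.trans hq)⟩

theorem down_EE (m : List (Idx P)) : Down (EE q₀ cone S M x en m) := by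
  induction m with
  | nil => exact fun _ _ _ _ => trivial
  | cons d m ih => exact fun r hr q hq => ⟨ih r hr.1 q hq, down_Ch m d r hr.2 q hq⟩

/-- all indices of the list lie in the model -/
theorem mem_of_EE : ∀ {m : List (Idx P)} {r : P}, r ∈ EE q₀ cone S M x en m → ∀ d ∈ m, d.1 ∈ M
  | [], _, _, d, hd => by simp at hd
  | d :: m, r, h, d', hd' => by
    rcases List.mem_cons.1 hd' with rfl | hd'
    · exact h.2.1.1
    · exact mem_of_EE h.1 d' hd'

/-- `en` is injective on the indices of the model -/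
def EnInj (M : Set P) (en : Idx P → ℕ) : Prop :=
  ∀ d d' : Idx P, d.1 ∈ M → d'.1 ∈ M → en d = en d' → d = d'

theorem Ch_unique (hen : EnInj M en) {m : List (Idx P)} {d d' : Idx P} {r : P}
    (h : r ∈ Ch q₀ cone S M x en m d) (h' : r ∈ Ch q₀ cone S M x en m d') : d = d' := by
  rcases lt_trichotomy (en d) (en d') with h1 | h1 | h1
  · exact absurd h.2.1 (h'.2.2 d h1 h.1 r le_rfl)
  · exact hen d d' h.1.1 h'.1.1 h1
  · exact absurd h'.2.1 (h.2.2 d' h1 h'.1 r le_rfl)

theorem EE_unique (hen : EnInj M en) {r : P} : ∀ {m m' : List (Idx P)},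
    m.length = m'.length → r ∈ EE q₀ cone S M x en m → r ∈ EE q₀ cone S M x en m' → m = m'
  | [], [], _, _, _ => rfl
  | [], _ :: _, h, _, _ => by simp at h
  | _ :: _, [], h, _, _ => by simp at h
  | d :: m, d' :: m', h, h1, h2 => by
    have h3 : m = m' := EE_unique hen (by simpa using h) h1.1 h2.1
    subst h3
    rw [Ch_unique hen h1.2 h2.2]

/-- What we need from the model: it is closed under the functions `ro` and common extensions with
`q₀`, and `q₂` is strongly generic. -/
structure Mod (q₀ : P) (cone : P → Set Can) (S : (n : ℕ) → (Fin (n + 1) → Nm P) → Nm P)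
    (M : Set P) (q₂ : P) : Prop where
  le : q₂ ≤ q₀
  gen : StronglyGeneric M q₂
  comm : ∀ q ∈ M, (∃ t, t ≤ q ∧ t ≤ q₀) → ∃ t ∈ M, t ≤ q ∧ t ≤ q₀
  ro_mem : ∀ (m : List (Idx P)) (d : Idx P), (∀ d' ∈ m, d'.1 ∈ M) → d.1 ∈ M →
    ro q₀ S (pos q₀ cone S m) d ∈ M

/-- `x` avoids the countable sets of the model. -/
def Out (q₀ : P) (cone : P → Set Can) (S : (n : ℕ) → (Fin (n + 1) → Nm P) → Nm P)
    (M : Set P) (x : Can) : Prop :=
  ∀ m : List (Idx P), (∀ d ∈ m, d.1 ∈ M) → ∀ q ∈ M, q ≤ q₀ → x ∉ KK q₀ S (pos q₀ cone S m) q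

theorem exists_Ch {q₂ : P} (hc : NewReal q₀ cone) (hS : Strat q₀ S) (hM : Mod q₀ cone S M q₂)
    (hx : Out q₀ cone S M x)
    {m : List (Idx P)} (hm : ∀ d ∈ m, d.1 ∈ M) {q : P} (hq : q ≤ q₂) :
    ∃ r ≤ q, ∃ d, r ∈ Ch q₀ cone S M x en m d := by
  classical
  -- the restriction of `q` to the model
  obtain ⟨a, haM, ha⟩ := hM.gen q hq
  obtain ⟨t, ht1, ht2⟩ := ha a haM le_rfl
  obtain ⟨b, hbM, hb1, hb2⟩ := hM.comm a haM ⟨t, ht1, ht2.trans (hq.trans hM.le)⟩
  have hb : ∀ s ∈ M, s ≤ b → ∃ t, t ≤ s ∧ t ≤ q := fun s hs hsb => ha s hs (hsb.trans hb1)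
  -- a good index with a stronger condition
  have h1 : ∃ d, Good q₀ cone S M x m d ∧ ∃ r ≤ q, r ≤ ro q₀ S (pos q₀ cone S m) d := by
    have h2 := hx m hm b hbM hb2
    simp only [KK, mem_ofPred_eq, not_forall] at h2
    obtain ⟨U, hU, q', hq', h3⟩ := h2
    push Not at h3
    obtain ⟨r, hr, G, h4, -⟩ := exists_dec hS (legal_pos q₀ cone S hc m) hU (hq'.trans hb2)
    have h5 : Sel q₀ S (pos q₀ cone S m) (b, G) := ⟨U, hU, r, hr.trans hq', h4⟩
    refine ⟨(b, G), ⟨hbM, h5, fun W hW hxW => ?_⟩, ?_⟩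
    · exact h3 r hr W.1 hxW (h4.2 W hW)
    · obtain ⟨r', h6, h7⟩ := hb _ (hM.ro_mem m (b, G) hm hbM) (ro_spec q₀ cone S h5).1
      exact ⟨r', h7, h6⟩
  have h2 : ∃ k, ∃ d, en d = k ∧ Good q₀ cone S M x m d ∧
      ∃ r ≤ q, r ≤ ro q₀ S (pos q₀ cone S m) d := by
    obtain ⟨d, h3, h4⟩ := h1
    exact ⟨en d, d, rfl, h3, h4⟩
  obtain ⟨d, h3, h4, r, h5, h6⟩ := Nat.find_spec h2
  refine ⟨r, h5, d, h4, h6, fun d' h7 h8 r' hr' h9 => ?_⟩
  rw [h3] at h7
  exact Nat.find_min h2 h7 ⟨d', rfl, h8, r', hr'.trans h5, h9⟩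

theorem exists_EE {q₂ : P} (hc : NewReal q₀ cone) (hS : Strat q₀ S) (hM : Mod q₀ cone S M q₂)
    (hx : Out q₀ cone S M x)
    (n : ℕ) {q : P} (hq : q ≤ q₂) : ∃ r ≤ q, ∃ m, m.length = n ∧ r ∈ EE q₀ cone S M x en m := by
  induction n with
  | zero => exact ⟨q, le_rfl, [], rfl, trivial⟩
  | succ n ih =>
    obtain ⟨r, hr, m, hm, h1⟩ := ih
    obtain ⟨r', hr', d, h2⟩ := exists_Ch (en := en) hc hS hM hx (mem_of_EE h1) (hr.trans hq)
    exact ⟨r', hr'.trans hr, d :: m, by simp [hm], down_EE m _ h1 _ hr', h2⟩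

theorem meets_play (hen : EnInj M en) {m : List (Idx P)} {d : Idx P} {r : P}
    (h : r ∈ EE q₀ cone S M x en (d :: m)) (O : Set Can) :
    r ∈ meets (play q₀ cone S M x en m.length O) ↔
      r ∈ meets (Uo q₀ cone S (pos q₀ cone S m) d O) := by
  constructor
  · intro h1
    refine meets_of_dense fun q hq => ?_
    obtain ⟨r', hr', s, ⟨m', d', h2, h3, h4⟩, h5⟩ := h1 q hq
    have h6 : d' :: m' = d :: m := EE_unique hen (by simp [h2]) (down_EE _ _ h3 _ h5)
      (down_EE _ _ h _ (hr'.trans hq))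
    obtain ⟨rfl, rfl⟩ := List.cons.inj h6
    exact ⟨r', hr', down_meets _ _ h4 _ h5⟩
  · intro h1
    exact meets_of_mem ⟨m, d, rfl, h, h1⟩

theorem legal_play {q₂ : P} (hen : EnInj M en) (hc : NewReal q₀ cone) (hS : Strat q₀ S)
    (hM : Mod q₀ cone S M q₂) (hx : Out q₀ cone S M x) (n : ℕ) :
    ∀ p ≤ q₂, p ∈ fLegal (play q₀ cone S M x en n) := by
  intro p hp
  -- below `p` the play agrees with a legal move
  have key : ∀ q ≤ p, ∃ r ≤ q, ∃ U : Nm P, Legal q₀ U ∧ ∀ r' ≤ r, ∀ O,
      (r' ∈ meets (play q₀ cone S M x en n O) ↔ r' ∈ meets (U O)) := by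
    intro q hq
    obtain ⟨r, hr, m, hm, h1⟩ := exists_EE (en := en) hc hS hM hx (n + 1) (hq.trans hp)
    cases m with
    | nil => simp at hm
    | cons d m =>
      have hm' : m.length = n := by simpa using hm
      subst hm'
      exact ⟨r, hr, _, legal_Uo q₀ cone S hc (pos q₀ cone S m) d, fun r' hr' O =>
        meets_play hen (down_EE _ _ h1 _ hr') O⟩
  have hp0 : p ≤ q₀ := hp.trans hM.le
  refine ⟨⟨fun O => mem_fimp.2 fun q hq h => ?_, fun y => mem_fex.2 fun q hq => ?_⟩,
    fun F => mem_fimp.2 fun q hq h => ?_⟩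
  · obtain ⟨r, hr, U, hU, h1⟩ := key q hq
    have h2 := (h1 r le_rfl O).1 (down_meets _ _ h _ hr)
    obtain ⟨r', hr', h3⟩ := mem_fimp.1 ((hU.1 r (hr.trans (hq.trans hp0))).1.1 O) r le_rfl h2
    exact ⟨r', hr'.trans hr, h3⟩
  · obtain ⟨r, hr, U, hU, h1⟩ := key q hq
    obtain ⟨r', hr', O, h2⟩ := mem_fex.1 ((hU.1 r (hr.trans (hq.trans hp0))).1.2 y) r le_rfl
    obtain ⟨r'', hr'', hyO, h3⟩ := mem_fex.1 h2 r' le_rfl
    exact ⟨r'', hr''.trans (hr'.trans hr), O, mem_fex_of_mem hyO (down_meets _)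
      ((h1 r'' (hr''.trans hr') O).2 h3)⟩
  · obtain ⟨r, hr, U, hU, h1⟩ := key q hq
    obtain ⟨r', hr', h2⟩ := mem_fimp.1 ((hU.1 r (hr.trans (hq.trans hp0))).2 F) r le_rfl
      fun O hO => (h1 r le_rfl O).1 (down_meets _ _ (h O hO) _ hr)
    exact ⟨r', hr'.trans hr, (h1 r' hr' _).2 h2⟩

theorem same_play (hen : EnInj M en) : ∀ (m : List (Idx P)) {r : P},
    r ∈ EE q₀ cone S M x en m → ∀ (i : ℕ) (h : m.length - 1 - i < (pos q₀ cone S m).length),
      i < m.length →
      r ∈ fSame (play q₀ cone S M x en i) ((pos q₀ cone S m)[m.length - 1 - i])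
  | [], _, _, i, _, hi => by simp at hi
  | d :: m, r, hr, i, h, hi => by
    rcases Nat.lt_succ_iff_lt_or_eq.1 hi with h1 | h1
    · have h2 := same_play hen m hr.1 i (by rw [length_pos]; omega) h1
      have h3 : (d :: m).length - 1 - i = (m.length - 1 - i) + 1 := by
        simp only [List.length_cons]
        omega
      have h4 : (pos q₀ cone S (d :: m))[(d :: m).length - 1 - i] =
          (pos q₀ cone S m)[m.length - 1 - i]'(by rw [length_pos]; omega) := by
        simp only [h3, pos, List.getElem_cons_succ]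
      rw [h4]
      exact h2
    · subst h1
      have h4 : (pos q₀ cone S (d :: m))[(d :: m).length - 1 - m.length] =
          Uo q₀ cone S (pos q₀ cone S m) d := by
        simp [pos]
      rw [h4]
      intro O
      refine ⟨mem_fimp.2 fun q hq h5 => ⟨q, le_rfl, ?_⟩, mem_fimp.2 fun q hq h5 =>
        ⟨q, le_rfl, ?_⟩⟩
      · exact (meets_play hen (down_EE _ _ hr _ hq) O).1 h5
      · exact (meets_play hen (down_EE _ _ hr _ hq) O).2 h5

/-- The strategy is beaten. -/
theorem beaten {q₂ : P} (hen : EnInj M en) (hc : NewReal q₀ cone) (hS : Strat q₀ S)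
    (hS₂ : Strat q₂ S) (hM : Mod q₀ cone S M q₂) (hx : Out q₀ cone S M x) : False := by
  obtain ⟨r, hr, n, O, hxO, h2⟩ := hS₂.cov (play q₀ cone S M x en)
    (legal_play hen hc hS hM hx) x q₂ le_rfl
  obtain ⟨r1, hr1, m', hm', h3⟩ := exists_EE (en := en) hc hS hM hx (n + 1) hr
  cases m' with
  | nil => simp at hm'
  | cons d m =>
    have hn : m.length = n := by simpa using hm'
    rw [← length_pos q₀ cone S m] at hn
    subst hn
    obtain ⟨r2, hr2, h4⟩ := hS₂.ext (pos q₀ cone S m).length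
      (fun i => play q₀ cone S M x en i)
      (fun i => (Uo q₀ cone S (pos q₀ cone S m) d ::
        pos q₀ cone S m)[(pos q₀ cone S m).length - i]'(by
        simp only [List.length_cons]; omega)) r1 (hr1.trans hr) (by
        intro i
        have hL := length_pos q₀ cone S m
        have hL' := length_pos q₀ cone S (d :: m)
        have hi : (i : ℕ) < (pos q₀ cone S m).length + 1 := i.2
        obtain ⟨k, hk⟩ : ∃ k : ℕ, k = (i : ℕ) := ⟨_, rfl⟩
        have h5 := same_play hen (d :: m) h3 k (by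
          rw [hL']
          simp only [List.length_cons]
          omega) (by
          simp only [List.length_cons]
          omega)
        have h6 : (d :: m).length - 1 - k = (pos q₀ cone S m).length - k := by
          simp only [List.length_cons]
          omega
        simp only [h6] at h5
        subst hk
        exact h5)
    obtain ⟨r3, hr3, h5⟩ := mem_fimp.1 (h4 O).1 r2 le_rfl
      (down_meets _ _ h2 _ (hr2.trans hr1))
    have h6 := h3.2
    obtain ⟨W, hW, h7⟩ := ((ro_spec q₀ cone S h6.1.2.1).2.1 O r3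
      ((hr3.trans hr2).trans h6.2.1)) h5
    exact h6.1.2.2 W hW (h7 ▸ hxO)

end

/-- A model and a point as needed exist. -/
theorem no_strat (hP : StronglyProper P) {q₀ : P} {cone : P → Set Can}
    (hc : NewReal q₀ cone) {S : (n : ℕ) → (Fin (n + 1) → Nm P) → Nm P}
    (hS : ∀ q ≤ q₀, Strat q S) : False := by
  classical
  have hFC := countable_FC
  -- common extensions with `q₀`
  have hcomm : ∀ q : P, ∃ r : P, ((∃ t, t ≤ q ∧ t ≤ q₀) → r ≤ q ∧ r ≤ q₀) := by
    intro q
    by_cases hq : ∃ t, t ≤ q ∧ t ≤ q₀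
    · obtain ⟨t, ht⟩ := hq
      exact ⟨t, fun _ => ht⟩
    · exact ⟨q, fun h => absurd h hq⟩
  choose k hk using hcomm
  -- the functions
  let f : Option (List FC) → List P → P := fun i l =>
    match i with
    | none => k (l.headD q₀)
    | some L =>
      match l.zip L with
      | [] => q₀
      | d :: m => ro q₀ S (pos q₀ cone S m) d
  obtain ⟨M, hM, hq₀M, hf, hgen⟩ := exists_model hP q₀ f
  obtain ⟨q₂, hq₂, hq₂'⟩ := hgen q₀ hq₀M
  have hmod : Mod q₀ cone S M q₂ := by
    refine ⟨hq₂, hq₂', fun q hq h => ⟨k q, ?_, hk q h⟩, fun m d hm hd => ?_⟩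
    · have := hf none [q] (by simpa using hq)
      simpa [f] using this
    · have h1 := hf (some ((d :: m).map Prod.snd)) ((d :: m).map Prod.fst) (by
        intro p hp
        obtain ⟨d', hd', rfl⟩ := List.mem_map.1 hp
        rcases List.mem_cons.1 hd' with rfl | hd'
        · exact hd
        · exact hm d' hd')
      have h2 : ((d :: m).map Prod.fst).zip ((d :: m).map Prod.snd) = d :: m := by
        have : ∀ l : List (Idx P), (l.map Prod.fst).zip (l.map Prod.snd) = l := by
          intro l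
          induction l with
          | nil => rfl
          | cons a l ih => simp only [List.map_cons, List.zip_cons_cons, ih]
        exact this _
      simp only [f, h2] at h1
      exact h1
  -- an enumeration of the indices
  obtain ⟨e, he⟩ := hM.exists_eq_range ⟨q₀, hq₀M⟩
  obtain ⟨en, hen⟩ : ∃ en : Idx P → ℕ, EnInj M en := by
    have hct : Countable {d : Idx P // d.1 ∈ M} := by
      have h1 : Countable M := hM.to_subtype
      refine Function.Injective.countable (f := fun d : {d : Idx P // d.1 ∈ M} =>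
        ((⟨d.1.1, d.2⟩ : M), d.1.2)) ?_
      rintro ⟨⟨a, b⟩, h⟩ ⟨⟨a', b'⟩, h'⟩ hab
      simp only [Prod.mk.injEq, Subtype.mk.injEq] at hab
      simp [hab]
    obtain ⟨g, hg⟩ := exists_injective_nat {d : Idx P // d.1 ∈ M}
    refine ⟨fun d => if h : d.1 ∈ M then g ⟨d, h⟩ else 0, fun d d' hd hd' h => ?_⟩
    simp only [dif_pos hd, dif_pos hd'] at h
    exact congrArg Subtype.val (hg h)
  -- the point
  have h1 : (⋃ (m : List {d : Idx P // d.1 ∈ M}) (q : {q : P // q ∈ M ∧ q ≤ q₀}),
      KK q₀ S (pos q₀ cone S (m.map Subtype.val)) q.1).Countable := by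
    have hct : Countable {d : Idx P // d.1 ∈ M} := by
      refine Function.Injective.countable (f := fun d : {d : Idx P // d.1 ∈ M} => en d.1) ?_
      intro d d' h
      exact Subtype.ext (hen d.1 d'.1 d.2 d'.2 h)
    have hct' : Countable {q : P // q ∈ M ∧ q ≤ q₀} := by
      have h1 : Countable M := hM.to_subtype
      refine Function.Injective.countable (f := fun q : {q : P // q ∈ M ∧ q ≤ q₀} =>
        (⟨q.1, q.2.1⟩ : M)) ?_
      intro d d' h
      exact Subtype.ext (congrArg (fun z : M => (z : P)) h)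
    refine countable_iUnion fun m => countable_iUnion fun q => ?_
    exact countable_KK hc (hS q₀ le_rfl) (legal_pos q₀ cone S hc _) q.2.2
  obtain ⟨x, hx⟩ : ∃ x, x ∉ ⋃ (m : List {d : Idx P // d.1 ∈ M}) (q : {q : P // q ∈ M ∧ q ≤ q₀}),
      KK q₀ S (pos q₀ cone S (m.map Subtype.val)) q.1 := by
    by_contra hcon
    push Not at hcon
    rw [← eq_univ_iff_forall] at hcon
    rw [hcon] at h1
    have h2 : Countable Can := countable_univ_iff.1 h1
    obtain ⟨g, hg⟩ := (countable_iff_exists_surjective (α := Can)).1 h2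
    obtain ⟨k, hk⟩ := hg fun k => !(g k k)
    have := congrFun hk k
    simp at this
  refine beaten (x := x) hen hc (hS q₀ le_rfl) (hS q₂ hq₂) hmod fun m hm q hqM hq h => ?_
  refine hx (mem_iUnion₂.2 ⟨m.attach.map fun d => ⟨d.1, hm d.1 d.2⟩, ⟨q, hqM, hq⟩, ?_⟩)
  have h3 : ((m.attach.map fun d => (⟨d.1, hm d.1 d.2⟩ : {d : Idx P // d.1 ∈ M})).map
      Subtype.val) = m := by
    rw [List.map_map]
    exact List.attach_map_subtype_val m
  rw [h3]
  exact h

theorem strat_of_winning {q₀ : P} {S : (n : ℕ) → (Fin (n + 1) → Nm P) → Nm P}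
    (h : q₀ ∈ fWinning fOpenCover fFinite fOpenCover S) : Strat q₀ S where
  ext := fun n A B q hq hAB => mem_fimp.1 (h.1 n A B) q hq hAB
  ans := by
    intro n A hAl q hq
    obtain ⟨r, hr, h1, h2⟩ := mem_fimp.1 (h.2.1 n A) q hq fun i => (hAl i q hq).1
    obtain ⟨r1, hr1, F, h3⟩ := mem_fex.1 h1 r le_rfl
    refine ⟨r1, hr1.trans hr, F, fun O r' hr' h4 => ⟨?_, ?_⟩⟩
    · obtain ⟨_, _, h5⟩ := mem_fimp.1 (h3 O) r' hr' h4
      exact h5
    · exact mem_fimp.1 (h2 O) r' (hr'.trans hr1) h4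
  cov := by
    intro A hAl x q hq
    obtain ⟨r, hr, h1⟩ := mem_fimp.1 (h.2.2 A) q hq fun n => (hAl n q hq).1
    obtain ⟨r1, hr1, O, h2⟩ := mem_fex.1 (h1.2 x) r le_rfl
    obtain ⟨r2, hr2, hxO, h3⟩ := mem_fex.1 h2 r1 le_rfl
    obtain ⟨r3, hr3, s, hs, h4⟩ := h3 r2 le_rfl
    obtain ⟨n, hn⟩ := mem_iUnion.1 hs
    exact ⟨r3, hr3.trans (hr2.trans (hr1.trans hr)), n, O, hxO, meets_of_le hn h4⟩

theorem down_fWinning {𝒜 𝒞 ℬ : Nm P → Set P} {S : (n : ℕ) → (Fin (n + 1) → Nm P) → Nm P} :
    Down (fWinning 𝒜 𝒞 ℬ S) :=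
  down_fand (down_fall fun _ => down_fall fun _ => down_fall fun _ => down_fimp _ _)
    (down_fand (down_fall fun _ => down_fall fun _ => down_fimp _ _)
      (down_fall fun _ => down_fimp _ _))

/-- Below a condition without atoms a strongly proper forcing forces that II has no winning
strategy in the Menger game on the ground model Cantor space. -/
theorem no_menger (hP : StronglyProper P) (p : P)
    (hp : ∀ q ≤ p, ∃ r ≤ q, ∃ s ≤ q, ∀ t, t ≤ r → ¬ t ≤ s) :
    p ∈ fnot (fIIWinsFin (P := P) (X := ℕ → Bool) fOpenCover fOpenCover) := by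
  intro q hqp hq
  obtain ⟨r, hr, S, hS⟩ := mem_fex.1 hq q le_rfl
  obtain ⟨q₁, hq₁, cone, hc⟩ := exists_newReal hP r
    fun s hs => hp s (hs.trans (hr.trans hqp))
  exact no_strat hP hc (S := S) fun s hs =>
    strat_of_winning (down_fWinning _ hS _ (hs.trans hq₁))

end Pool.Agent.E8helper24.MG
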